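import Pool.Agent.H7.KR.Stmts

set_option autoImplicit false

open Finset

namespace Pool.KR

open Pool.Agent.H23.KT Pool.Agent.H46.KW Pool.KQ

theorem bze (hEDG : EDGStmt) (hCOV : COVStmt) (hCDG : CDGStmt) (hMEE : MEEStmt)
    (hNBR : NBRStmt) : BZEStmt := by
  intro p C
  obtain ⟨a₁, h1⟩ := hEDG p
  obtain ⟨a₂, h2⟩ := hCDG p C
  refine ⟨max a₁ a₂, ?_⟩
  intro a ha V _ _ G hG v e P hS he0 he1
  have ha1 : a ≥ a₁ := le_trans (le_max_left _ _) ha
  have ha2 : a ≥ a₂ := le_trans (le_max_right _ _) ha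
  have hdeg := hG.deg v
  have hWeq : nb G univ v = univ.biUnion P := by
    ext u
    rw [hS.cov u]
    simp
  have hcard : ∑ i, (P i).card = (nb G univ v).card := by
    rw [hWeq, card_biUnion]
    intro i _ j _ hij
    exact hS.par.dis i j hij
  obtain ⟨i, hi⟩ : ∃ i, (P i).card ≤ a := by
    by_contra hcon
    push Not at hcon
    have : ∑ _i : Fin (p + 3), (a + 1) ≤ ∑ i, (P i).card :=
      sum_le_sum (fun i _ => hcon i)
    rw [sum_const, card_univ, Fintype.card_fin, smul_eq_mul] at this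
    have h3 : (p + 3) * (a + 1) = (p + 3) * a + (p + 3) := by ring
    omega
  have hsub : P i ⊆ nb G univ v := by
    intro u hu
    rw [hS.cov u]
    exact Or.inr ⟨i, hu⟩
  have hcov := hCOV G p a v (P i) ∅ hsub
  have hempty : (clq G (nb G univ v) (p + 3)).filter
      (fun L => ¬ (Disjoint L (∅ : Finset V) ∧ ¬ Disjoint L (P i))) = ∅ := by
    rw [filter_eq_empty_iff]
    intro L hL hn
    apply hn
    refine ⟨disjoint_empty_right _, ?_⟩
    obtain ⟨u, hu1, hu2⟩ := (hMEE G p a e C (nb G univ v) P ∅ hS L hL).1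
      (disjoint_empty_right _) i
    intro hd
    exact (Finset.disjoint_left.mp hd) hu1 hu2
  rw [hempty] at hcov
  obtain ⟨c1, c2, _⟩ := h2 a ha2 G e (nb G univ v) P ∅ hS he0 he1 hdeg i
  obtain ⟨_, _, n3, _, _⟩ := hNBR
  have key : ∀ u ∈ P i, ES G p a v u (co G v u \ ∅) ≤
      a * (bal (p + 2) ((p + 3) * a + (p + 2) - (P i).card) : ℝ) := by
    intro u hu
    have hc := c1 u hu
    have hn : (co G v u).card + (P i).card ≤ (p + 3) * a + (p + 2) := by
      have : (co G v u).card = (nb G (nb G univ v) u).card := rfl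
      omega
    have hE := h1 a ha1 G hG v u (hsub hu) (c2 _ hn)
    rw [sdiff_empty]
    refine hE.trans ?_
    apply mul_le_mul_of_nonneg_left _ (Nat.cast_nonneg a)
    have h4 : (p + 3) * a = (p + 2) * a + a := by ring
    have h5 : (p + 2) * (a + 1) = (p + 2) * a + (p + 2) := by ring
    exact_mod_cast bal_mono (q := p + 2) (by omega) (max_le (by omega) (by omega))
  have hsum : ∑ u ∈ P i, ES G p a v u (co G v u \ ∅) ≤
      (P i).card * (a * (bal (p + 2) ((p + 3) * a + (p + 2) - (P i).card) : ℝ)) := by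
    have := sum_le_sum key
    rwa [sum_const, nsmul_eq_mul] at this
  have h3 : (((P i).card * bal (p + 2) ((p + 3) * a + (p + 2) - (P i).card) : ℕ) : ℝ) ≤
      (bal (p + 3) ((p + 3) * a + (p + 2)) : ℝ) := by
    have h4 : (p + 3) * a = (p + 2) * a + a := by ring
    exact_mod_cast n3 p a (P i).card ((p + 3) * a + (p + 2) - (P i).card) (by omega)
  rw [card_empty, Nat.cast_zero, mul_zero, add_zero] at hcov
  refine hcov.trans (hsum.trans ?_)
  push_cast at h3
  have ha0 : (0 : ℝ) ≤ a := Nat.cast_nonneg a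
  nlinarith [mul_le_mul_of_nonneg_left h3 ha0]

end Pool.KR
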